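import Mathlib
import Pool.Agent.Lib.MP_0c67ff_ag.U.Hom

set_option autoImplicit false

universe u

/-!
Projective dimension of the quotient of a polynomial ring by finitely many variables.
-/

open CategoryTheory Abelian

namespace Pool.Agent.Lib.MP_0c67ff_ag.U

section Ext

variable {R : Type u} [CommRing R]

lemma ext_step {M L : Type u} [AddCommGroup M] [Module R M] [AddCommGroup L] [Module R L]
    (N : Type u) [AddCommGroup N] [Module R N] (x : R)
    {g : M →ₗ[R] L} (he : Function.Exact (LinearMap.lsmul R M x) g)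
    (hi : Function.Injective (LinearMap.lsmul R M x)) (hs : Function.Surjective g)
    (hN : ∀ a : N, x • a = 0) (n : ℕ)
    (h : ∃ e : Ext (ModuleCat.of R M) (ModuleCat.of R N) n, e ≠ 0) :
    ∃ e : Ext (ModuleCat.of R L) (ModuleCat.of R N) (n + 1), e ≠ 0 := by
  obtain ⟨e, he0⟩ := h
  have hS := shortExact_of he hi hs
  refine ⟨hS.extClass.comp e (add_comm 1 n), fun h0 => he0 ?_⟩
  obtain ⟨x₂, hx₂⟩ := Ext.contravariant_sequence_exact₁ hS _ e (add_comm 1 n) h0
  have hf : (ModuleCat.shortComplexOfCompEqZero (LinearMap.lsmul R M x) g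
      he.linearMap_comp_eq_zero).f = x • 𝟙 (ModuleCat.of R M) := rfl
  have hz : x • 𝟙 (ModuleCat.of R N) = 0 := by
    ext a
    exact hN a
  rw [← hx₂, hf, Ext.mk₀_smul, Ext.smul_comp, Ext.mk₀_id_comp]
  have : x • x₂ = x₂.comp (Ext.mk₀ (x • 𝟙 (ModuleCat.of R N))) (add_zero n) := by
    rw [Ext.mk₀_smul, Ext.comp_smul, Ext.comp_mk₀_id]
  rw [this, hz, Ext.mk₀_zero, Ext.comp_zero]

end Ext

section Quot

variable {R : Type u} [CommRing R]

lemma quot_seq (P P' : Ideal R) (x : R) (hx : ∀ r, r * x ∈ P → r ∈ P)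
    (hP' : P' = P ⊔ Ideal.span {x}) :
    ∃ g : (R ⧸ P) →ₗ[R] (R ⧸ P'), Function.Exact (LinearMap.lsmul R (R ⧸ P) x) g ∧
      Function.Injective (LinearMap.lsmul R (R ⧸ P) x) ∧ Function.Surjective g := by
  have hle : P ≤ P' := by rw [hP']; exact le_sup_left
  refine ⟨Submodule.mapQ P P' LinearMap.id (by simpa using! hle), ?_, ?_, ?_⟩
  · intro y
    obtain ⟨r, rfl⟩ := Ideal.Quotient.mk_surjective y
    constructor
    · intro h
      have hr : r ∈ P' := by
        have : (Ideal.Quotient.mk P' r) = 0 := h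
        exact Ideal.Quotient.eq_zero_iff_mem.1 this
      rw [hP', Submodule.mem_sup] at hr
      obtain ⟨a, ha, b, hb, rfl⟩ := hr
      obtain ⟨s, rfl⟩ := Ideal.mem_span_singleton'.1 hb
      refine ⟨Ideal.Quotient.mk P s, ?_⟩
      change x • Ideal.Quotient.mk P s = _
      rw [Algebra.smul_def]
      change Ideal.Quotient.mk P x * Ideal.Quotient.mk P s = _
      rw [← map_mul, Ideal.Quotient.eq]
      have : x * s - (a + s * x) = -a := by ring
      rw [this]
      exact P.neg_mem ha
    · rintro ⟨z, hz⟩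
      obtain ⟨s, rfl⟩ := Ideal.Quotient.mk_surjective z
      rw [← hz]
      change Ideal.Quotient.mk P' (x * s) = 0
      rw [Ideal.Quotient.eq_zero_iff_mem, hP']
      exact Ideal.mem_sup_right (Ideal.mul_mem_right _ _ (Ideal.mem_span_singleton_self x))
  · rw [← LinearMap.ker_eq_bot, LinearMap.ker_eq_bot']
    intro y hy
    obtain ⟨r, rfl⟩ := Ideal.Quotient.mk_surjective y
    have hy' : Ideal.Quotient.mk P (x * r) = 0 := hy
    rw [Ideal.Quotient.eq_zero_iff_mem] at hy' ⊢
    exact hx r (by rwa [mul_comm])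
  · intro y
    obtain ⟨r, rfl⟩ := Ideal.Quotient.mk_surjective y
    exact ⟨Ideal.Quotient.mk P r, rfl⟩

end Quot

section Vars

open MvPolynomial

variable (k : Type u) [Field k] {σ : Type}

/-- The monomial ideal spanned by all monomials with exponent in `S`. -/
noncomputable def mI (S : Set (σ →₀ ℕ)) : Ideal (MvPolynomial σ k) :=
  Ideal.span ((fun e => monomial e (1 : k)) '' S)

lemma mem_mI {S : Set (σ →₀ ℕ)} {p : MvPolynomial σ k} :
    p ∈ mI k S ↔ ∀ m ∈ p.support, ∃ s ∈ S, s ≤ m :=
  mem_ideal_span_monomial_image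

/-- The ideal spanned by the variables in `Q`. -/
noncomputable def vI (Q : Set σ) : Ideal (MvPolynomial σ k) :=
  mI k ((fun i => Finsupp.single i 1) '' Q)

lemma mem_vI {Q : Set σ} {p : MvPolynomial σ k} :
    p ∈ vI k Q ↔ ∀ m ∈ p.support, ∃ i ∈ Q, 1 ≤ m i := by
  unfold vI
  rw [mem_mI]
  simp [Finsupp.single_le_iff]

/-- `r * monomial v 1` lies in a monomial ideal iff shifted support does. -/
lemma mul_monomial_mem_mI {S : Set (σ →₀ ℕ)} {r : MvPolynomial σ k} {v : σ →₀ ℕ} :
    r * monomial v (1 : k) ∈ mI k S ↔ ∀ m ∈ r.support, ∃ s ∈ S, s ≤ m + v := by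
  classical
  rw [mem_mI]
  constructor
  · intro h m hm
    refine h (m + v) ?_
    rw [mem_support_iff, coeff_mul_monomial, mul_one]
    exact mem_support_iff.1 hm
  · intro h m hm
    rw [mem_support_iff, coeff_mul_monomial'] at hm
    split_ifs at hm with hle
    · rw [mul_one] at hm
      have := h (m - v) (mem_support_iff.2 hm)
      rwa [tsub_add_cancel_of_le hle] at this
    · exact absurd rfl hm

lemma vI_insert (Q : Set σ) (i : σ) :
    vI k (insert i Q) = vI k Q ⊔ Ideal.span {X i} := by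
  unfold vI mI
  rw [Set.image_insert_eq, Set.image_insert_eq, Set.insert_eq, Ideal.span_union, sup_comm]
  rfl

lemma vI_regular (Q : Set σ) (i : σ) (hi : i ∉ Q) (r : MvPolynomial σ k)
    (h : r * X i ∈ vI k Q) : r ∈ vI k Q := by
  have h' : r * monomial (Finsupp.single i 1) (1 : k) ∈ mI k _ := h
  rw [mul_monomial_mem_mI] at h'
  rw [mem_vI]
  intro m hm
  obtain ⟨s, ⟨j, hj, rfl⟩, hs⟩ := h' m hm
  refine ⟨j, hj, ?_⟩
  have hji : j ≠ i := fun hji => hi (hji ▸ hj)
  have := hs j
  simpa [Finsupp.single_apply, hji, Ne.symm hji] using this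

lemma vI_empty : vI k (∅ : Set σ) = ⊥ := by
  unfold vI mI
  simp

/-- Upper bound. -/
lemma PD_quot_vars (Q : Finset σ) :
    PD (MvPolynomial σ k) (MvPolynomial σ k ⧸ vI k (Q : Set σ)) (Q.card + 1) := by
  classical
  induction Q using Finset.induction_on with
  | empty =>
    have e : (MvPolynomial σ k) ≃ₗ[MvPolynomial σ k]
        (MvPolynomial σ k ⧸ vI k ((∅ : Finset σ) : Set σ)) :=
      (Submodule.quotEquivOfEqBot _ (by simp [vI_empty])).symm
    exact PD.of_equiv e (PD.of_projective (by simp))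
  | insert i Q hi ih =>
    obtain ⟨g, he, hinj, hs⟩ := quot_seq (vI k (Q : Set σ)) (vI k ((insert i Q : Finset σ) : Set σ))
      (X i) (vI_regular k _ i (by simpa using hi)) (by rw [Finset.coe_insert, vI_insert])
    rw [Finset.card_insert_of_notMem hi]
    exact PD.right he hinj hs ih (ih.mono (by omega))

/-- The residue module on which all variables act as zero. -/
abbrev ResMod (k : Type u) [Field k] (σ : Type) : Type u := MvPolynomial σ k ⧸ vI k (Set.univ : Set σ)

lemma resMod_smul (i : σ) (a : ResMod k σ) : (X i : MvPolynomial σ k) • a = 0 := by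
  obtain ⟨r, rfl⟩ := Ideal.Quotient.mk_surjective a
  change Ideal.Quotient.mk _ (X i * r) = 0
  rw [Ideal.Quotient.eq_zero_iff_mem]
  refine Ideal.mul_mem_right _ _ ?_
  refine Ideal.subset_span ⟨Finsupp.single i 1, ⟨i, Set.mem_univ i, rfl⟩, rfl⟩

lemma one_notMem_vI (Q : Set σ) : (1 : MvPolynomial σ k) ∉ vI k Q := by
  rw [mem_vI]
  intro h
  obtain ⟨i, _, hi⟩ := h 0 (by simp)
  simp at hi

lemma exists_ext_vars (Q : Finset σ) :
    ∃ e : Ext (ModuleCat.of (MvPolynomial σ k) (MvPolynomial σ k ⧸ vI k (Q : Set σ)))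
      (ModuleCat.of (MvPolynomial σ k) (ResMod k σ)) Q.card, e ≠ 0 := by
  classical
  induction Q using Finset.induction_on with
  | empty =>
    let f : (MvPolynomial σ k ⧸ vI k ((∅ : Finset σ) : Set σ)) →ₗ[MvPolynomial σ k] ResMod k σ :=
      Submodule.mapQ _ _ LinearMap.id (by simp [vI_empty])
    refine ⟨Ext.mk₀ (ModuleCat.ofHom f), fun h => ?_⟩
    have h1 := (Ext.mk₀_bijective _ _).1 (h.trans (Ext.mk₀_zero
      (ModuleCat.of (MvPolynomial σ k) _) (ModuleCat.of (MvPolynomial σ k) _)).symm)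
    have h2 : f (Ideal.Quotient.mk _ 1) = 0 := by
      have := congrArg (fun φ => ModuleCat.Hom.hom φ (Ideal.Quotient.mk _ 1)) h1
      simpa using this
    have h3 : (Ideal.Quotient.mk (vI k (Set.univ : Set σ)) 1) = 0 := h2
    rw [Ideal.Quotient.eq_zero_iff_mem] at h3
    exact one_notMem_vI k _ h3
  | insert i Q hi ih =>
    obtain ⟨g, he, hinj, hs⟩ := quot_seq (vI k (Q : Set σ)) (vI k ((insert i Q : Finset σ) : Set σ))
      (X i) (vI_regular k _ i (by simpa using hi)) (by rw [Finset.coe_insert, vI_insert])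
    rw [Finset.card_insert_of_notMem hi]
    exact ext_step _ (X i) he hinj hs (resMod_smul k i) _ ih

/-- Lower bound. -/
lemma not_PD_quot_vars (Q : Finset σ) :
    ¬ PD (MvPolynomial σ k) (MvPolynomial σ k ⧸ vI k (Q : Set σ)) Q.card := by
  intro h
  obtain ⟨e, he⟩ := exists_ext_vars k Q
  have := h
  exact he (e.eq_zero_of_hasProjectiveDimensionLT Q.card le_rfl)

lemma exact_subtype_mk (R : Type u) [CommRing R] (P : Ideal R) :
    Function.Exact (Submodule.subtype P) (Submodule.mkQ P) := by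
  intro x
  simp [Ideal.Quotient.eq_zero_iff_mem]

/-- The ideal generated by `s ≥ 1` variables has projective dimension at most `s - 1`. -/
lemma PD_vars (Q : Finset σ) (hQ : 1 ≤ Q.card) :
    PD (MvPolynomial σ k) (vI k (Q : Set σ)) Q.card := by
  refine PD.left (exact_subtype_mk _ (vI k (Q : Set σ))) (Submodule.subtype_injective _)
    (Submodule.mkQ_surjective _) (PD.of_projective hQ) (PD_quot_vars k Q)

/-- The ideal generated by `n + 1` variables does not have projective dimension `< n`. -/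
lemma not_PD_vars (Q : Finset σ) (n : ℕ) (hQ : n + 1 = Q.card) :
    ¬ PD (MvPolynomial σ k) (vI k (Q : Set σ)) n := by
  intro h
  refine not_PD_quot_vars k Q ?_
  rw [← hQ]
  exact PD.right (exact_subtype_mk _ (vI k (Q : Set σ))) (Submodule.subtype_injective _)
    (Submodule.mkQ_surjective _) h (PD.of_projective (by omega))

end Vars

end Pool.Agent.Lib.MP_0c67ff_ag.U
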