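import Mathlib
import Pool.Agent.Lib.MP_0c67ff_ag.U.Vars

set_option autoImplicit false

universe u

/-!
Monomial ideals squeezed between consecutive powers of `(x, y)`.
-/

open CategoryTheory Abelian MvPolynomial

namespace Pool.Agent.Lib.MP_0c67ff_ag.U

/-- The two base variables and the family of further variables. -/
structure VarSetup (σ ι : Type) where
  x : σ
  y : σ
  z : ι → σ
  hxy : x ≠ y
  hzx : ∀ j, z j ≠ x
  hzy : ∀ j, z j ≠ y
  hz : Function.Injective z

namespace VarSetup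

variable {σ ι : Type} (V : VarSetup σ ι)

/-- Exponents of `(x,y)`-degree at least `d`, where in degree exactly `d` we require that the
`y`-exponent lies in `B`, or that some variable `z j` with `j ∈ Z (y-exponent)` occurs. -/
def U (d : ℕ) (B : Set ℕ) (Z : ℕ → Set ι) : Set (σ →₀ ℕ) :=
  {e | d + 1 ≤ e V.x + e V.y ∨
    (e V.x + e V.y = d ∧ (e V.y ∈ B ∨ ∃ j ∈ Z (e V.y), 1 ≤ e (V.z j)))}

lemma U_upper {d : ℕ} {B : Set ℕ} {Z : ℕ → Set ι} {e e' : σ →₀ ℕ} (he : e ∈ V.U d B Z)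
    (hle : e ≤ e') : e' ∈ V.U d B Z := by
  have h1 := hle V.x
  have h2 := hle V.y
  rcases he with h | ⟨h, h'⟩
  · left; omega
  · by_cases hd : d + 1 ≤ e' V.x + e' V.y
    · left; exact hd
    · right
      have hy : e' V.y = e V.y := by omega
      refine ⟨by omega, ?_⟩
      rw [hy]
      rcases h' with h' | ⟨j, hj, hj'⟩
      · left; exact h'
      · right; exact ⟨j, hj, hj'.trans (hle _)⟩

lemma exists_le_iff_mem_U {d : ℕ} {B : Set ℕ} {Z : ℕ → Set ι} {m : σ →₀ ℕ} :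
    (∃ s ∈ V.U d B Z, s ≤ m) ↔ m ∈ V.U d B Z :=
  ⟨fun ⟨_, hs, hle⟩ => V.U_upper hs hle, fun h => ⟨m, h, le_rfl⟩⟩

/-- The exponent of `x ^ (d - w) * y ^ w`. -/
noncomputable def v (d w : ℕ) : σ →₀ ℕ := Finsupp.single V.x (d - w) + Finsupp.single V.y w

lemma v_x (d w : ℕ) : V.v d w V.x = d - w := by
  simp [v, V.hxy.symm]

lemma v_y (d w : ℕ) : V.v d w V.y = w := by
  simp [v, V.hxy]

lemma v_z (d w : ℕ) (j : ι) : V.v d w (V.z j) = 0 := by
  simp [v, (V.hzx j).symm, (V.hzy j).symm]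

lemma v_le_iff {d w : ℕ} {m : σ →₀ ℕ} : V.v d w ≤ m ↔ d - w ≤ m V.x ∧ w ≤ m V.y := by
  classical
  constructor
  · intro h
    have h1 := h V.x
    have h2 := h V.y
    rw [v_x] at h1
    rw [v_y] at h2
    exact ⟨h1, h2⟩
  · rintro ⟨h1, h2⟩ i
    by_cases hx : i = V.x
    · rw [hx, v_x]; exact h1
    · by_cases hy : i = V.y
      · rw [hy, v_y]; exact h2
      · simp [v, Ne.symm hx, Ne.symm hy]

variable (k : Type u) [Field k]

lemma mem_mI_U {d : ℕ} {B : Set ℕ} {Z : ℕ → Set ι} {p : MvPolynomial σ k} :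
    p ∈ mI k (V.U d B Z) ↔ ∀ m ∈ p.support, m ∈ V.U d B Z := by
  rw [mem_mI]
  simp only [exists_le_iff_mem_U]

lemma colon {d : ℕ} {B : Set ℕ} {Z : ℕ → Set ι} {w : ℕ} (hw : w ≤ d) (hB : w ∉ B)
    (r : MvPolynomial σ k) :
    r ∈ vI k (insert V.x (insert V.y (V.z '' (Z w)))) ↔
      r * monomial (V.v d w) (1 : k) ∈ mI k (V.U d B Z) := by
  rw [mul_monomial_mem_mI, mem_vI]
  simp only [exists_le_iff_mem_U]
  refine forall₂_congr fun m _ => ?_
  have ex : (m + V.v d w) V.x = m V.x + (d - w) := by simp [v_x]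
  have ey : (m + V.v d w) V.y = m V.y + w := by simp [v_y]
  have ez : ∀ j, (m + V.v d w) (V.z j) = m (V.z j) := by intro j; simp [v_z]
  constructor
  · rintro ⟨i, hi, hi1⟩
    rcases hi with rfl | rfl | ⟨j, hj, rfl⟩
    · left; rw [ex, ey]; omega
    · left; rw [ex, ey]; omega
    · by_cases h0 : m V.x + m V.y = 0
      · right
        rw [ex, ey]
        have hy : m V.y = 0 := by omega
        refine ⟨by omega, Or.inr ⟨j, ?_, ?_⟩⟩
        · rw [hy, zero_add]; exact hj
        · rw [ez]; exact hi1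
      · left; rw [ex, ey]; omega
  · intro h
    by_cases hx : 1 ≤ m V.x
    · exact ⟨V.x, by simp, hx⟩
    by_cases hy : 1 ≤ m V.y
    · exact ⟨V.y, by simp, hy⟩
    rcases h with h | ⟨_, h | ⟨j, hj, hj1⟩⟩
    · rw [ex, ey] at h; omega
    · rw [ey] at h
      have : m V.y + w = w := by omega
      rw [this] at h
      exact absurd h hB
    · rw [ey] at hj
      have : m V.y + w = w := by omega
      rw [this] at hj
      rw [ez] at hj1
      exact ⟨V.z j, by simp only [Set.mem_insert_iff]; right; right; exact ⟨j, hj, rfl⟩, hj1⟩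

lemma sup_monomial {d : ℕ} {B : Set ℕ} {Z : ℕ → Set ι} {w : ℕ} (hw : w ≤ d) :
    mI k (V.U d (insert w B) Z) = mI k (V.U d B Z) ⊔ Ideal.span {monomial (V.v d w) (1 : k)} := by
  apply le_antisymm
  · refine Ideal.span_le.2 ?_
    rintro _ ⟨e, he, rfl⟩
    by_cases h : e ∈ V.U d B Z
    · exact Ideal.mem_sup_left (Ideal.subset_span ⟨e, h, rfl⟩)
    · refine Ideal.mem_sup_right ?_
      rcases he with he | ⟨he, he' | he'⟩
      · exact absurd (Or.inl he) h
      · rcases he' with he' | he'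
        · rw [Ideal.mem_span_singleton]
          have hle : V.v d w ≤ e := by
            rw [v_le_iff]; omega
          refine ⟨monomial (e - V.v d w) 1, ?_⟩
          rw [monomial_mul, mul_one, add_tsub_cancel_of_le hle]
        · exact absurd (Or.inr ⟨he, Or.inl he'⟩) h
      · exact absurd (Or.inr ⟨he, Or.inr he'⟩) h
  · refine sup_le (Ideal.span_mono (Set.image_mono ?_)) ?_
    · rintro e (he | ⟨he, he' | he'⟩)
      · exact Or.inl he
      · exact Or.inr ⟨he, Or.inl (Set.mem_insert_of_mem _ he')⟩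
      · exact Or.inr ⟨he, Or.inr he'⟩
    · rw [Ideal.span_singleton_le_iff_mem]
      refine Ideal.subset_span ⟨V.v d w, Or.inr ⟨?_, Or.inl ?_⟩, rfl⟩
      · rw [v_x, v_y]; omega
      · rw [v_y]; exact Set.mem_insert _ _

/-- The exponents of `(x,y)`-degree at least `d`. -/
def Q (d : ℕ) : Set (σ →₀ ℕ) := {e | d ≤ e V.x + e V.y}

lemma U_eq_Q {d : ℕ} {B : Set ℕ} {Z : ℕ → Set ι} (h : ∀ w ≤ d, w ∈ B) : V.U d B Z = V.Q d := by
  ext e
  constructor
  · rintro (he | ⟨he, _⟩)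
    · exact (Nat.le_succ d).trans he
    · exact he.ge
  · intro he
    have he' : d ≤ e V.x + e V.y := he
    rcases Nat.lt_or_ge d (e V.x + e V.y) with h1 | h1
    · exact Or.inl h1
    · exact Or.inr ⟨by omega, Or.inl (h _ (by omega))⟩

lemma U_empty (d : ℕ) : V.U d ∅ (fun _ => ∅) = V.Q (d + 1) := by
  ext e
  simp [U, Q]

open Classical in
/-- The finset of variables occurring in the colon ideal. -/
noncomputable def QF (S : Finset ι) : Finset σ := insert V.x (insert V.y (S.image V.z))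

lemma QF_coe (S : Finset ι) : ((V.QF S : Finset σ) : Set σ) =
    insert V.x (insert V.y (V.z '' (S : Set ι))) := by
  simp [QF]

lemma QF_card (S : Finset ι) : (V.QF S).card = S.card + 2 := by
  classical
  unfold QF
  rw [Finset.card_insert_of_notMem, Finset.card_insert_of_notMem,
    Finset.card_image_of_injective _ V.hz]
  · simp only [Finset.mem_image, not_exists, not_and]
    intro j _; exact V.hzy j
  · simp only [Finset.mem_insert, Finset.mem_image, not_or, not_exists, not_and]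
    exact ⟨V.hxy, fun j _ => V.hzx j⟩

lemma colon' {d : ℕ} {B : Set ℕ} {Z : ℕ → Finset ι} {w : ℕ} (hw : w ≤ d) (hB : w ∉ B)
    (r : MvPolynomial σ k) :
    r ∈ vI k (V.QF (Z w) : Set σ) ↔
      r * monomial (V.v d w) (1 : k) ∈ mI k (V.U d B (fun w => (Z w : Set ι))) := by
  rw [QF_coe]
  exact V.colon k (Z := fun w => (Z w : Set ι)) hw hB r

lemma PD_step {d : ℕ} {B : Set ℕ} {Z : ℕ → Finset ι} {w n : ℕ} (hw : w ≤ d) (hB : w ∉ B)
    (hn : (Z w).card + 2 ≤ n)
    (h : PD (MvPolynomial σ k) (mI k (V.U d (insert w B) (fun w => (Z w : Set ι)))) n) :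
    PD (MvPolynomial σ k) (mI k (V.U d B (fun w => (Z w : Set ι)))) n := by
  refine PD_ideal_step (mI k (V.U d B (fun w => (Z w : Set ι)))) (vI k (V.QF (Z w) : Set σ))
    (mI k (V.U d (insert w B) (fun w => (Z w : Set ι)))) (monomial (V.v d w) (1 : k)) ?_ ?_ ?_ h
  · exact V.colon' k hw hB
  · exact V.sup_monomial k hw
  · refine (PD_vars k (V.QF (Z w)) ?_).mono ?_
    · rw [QF_card]; omega
    · rw [QF_card]; exact hn

lemma PD_chain {d : ℕ} {Z : ℕ → Finset ι} {n : ℕ}
    (hQ : PD (MvPolynomial σ k) (mI k (V.Q d)) n) (N : ℕ) :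
    ∀ B : Set ℕ, (∀ w ≤ d, w ∉ B → (Z w).card + 2 ≤ n) →
      {w | w ≤ d ∧ w ∉ B}.ncard = N →
      PD (MvPolynomial σ k) (mI k (V.U d B (fun w => (Z w : Set ι)))) n := by
  induction N with
  | zero =>
    intro B hB hN
    have hfin : {w | w ≤ d ∧ w ∉ B}.Finite := (Set.finite_Iic d).subset (fun w hw => hw.1)
    rw [Set.ncard_eq_zero hfin] at hN
    rw [V.U_eq_Q]
    · exact hQ
    · intro w hw
      by_contra hwB
      have : w ∈ {w | w ≤ d ∧ w ∉ B} := ⟨hw, hwB⟩
      rw [hN] at this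
      exact this
  | succ N ih =>
    intro B hB hN
    have hfin : {w | w ≤ d ∧ w ∉ B}.Finite := (Set.finite_Iic d).subset (fun w hw => hw.1)
    have hne : {w | w ≤ d ∧ w ∉ B}.Nonempty := by
      rw [← Set.ncard_pos hfin]; omega
    obtain ⟨w, hw, hwB⟩ := hne
    refine V.PD_step k hw hwB (hB w hw hwB) (ih (insert w B) ?_ ?_)
    · intro w' hw' hw'B
      exact hB w' hw' (fun h => hw'B (Set.mem_insert_of_mem _ h))
    · have : {w' | w' ≤ d ∧ w' ∉ insert w B} = {w' | w' ≤ d ∧ w' ∉ B} \ {w} := by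
        ext w'
        simp only [Set.mem_ofPred_eq, Set.mem_insert_iff, not_or, Set.mem_sdiff,
          Set.mem_singleton_iff]
        tauto
      have hmem : w ∈ {w' | w' ≤ d ∧ w' ∉ B} := ⟨hw, hwB⟩
      rw [this, Set.ncard_sdiff_singleton_of_mem hmem, hN]
      rfl

lemma mI_Q_zero : mI k (V.Q 0) = ⊤ := by
  rw [Ideal.eq_top_iff_one]
  refine Ideal.subset_span ⟨0, ?_, rfl⟩
  simp [Q]

lemma PD_Q (d : ℕ) : PD (MvPolynomial σ k) (mI k (V.Q d)) 2 := by
  induction d with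
  | zero =>
    rw [mI_Q_zero]
    exact PD.of_equiv (Submodule.topEquiv (R := MvPolynomial σ k) (M := MvPolynomial σ k)).symm
      (PD.of_projective (by omega))
  | succ d ih =>
    have h := V.PD_chain k (Z := fun _ => (∅ : Finset ι)) ih _ ∅ (by simp) rfl
    have h2 : V.U d ∅ (fun w => (((fun _ => (∅ : Finset ι)) w : Finset ι) : Set ι)) =
        V.Q (d + 1) := by
      simp only [Finset.coe_empty]
      exact V.U_empty d
    rw [h2] at h
    exact h

/-- Upper bound for the squeezed ideals. -/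
theorem PD_U {d : ℕ} (B : Set ℕ) (Z : ℕ → Finset ι) {r : ℕ}
    (h : ∀ w ≤ d, w ∉ B → (Z w).card ≤ r) :
    PD (MvPolynomial σ k) (mI k (V.U d B (fun w => (Z w : Set ι)))) (r + 2) :=
  V.PD_chain k ((V.PD_Q k d).mono (by omega)) _ B (fun w hw hwB => by
    have := h w hw hwB; omega) rfl

/-- Lower bound for the squeezed ideals. -/
theorem not_PD_U {d : ℕ} (B : Set ℕ) (Z : ℕ → Finset ι) {r : ℕ}
    (h : ∀ w ≤ d, w ∉ B → (Z w).card ≤ r) {w₀ : ℕ} (hw₀ : w₀ ≤ d) (hB : w₀ ∉ B)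
    (hr : (Z w₀).card = r) :
    ¬ PD (MvPolynomial σ k) (mI k (V.U d B (fun w => (Z w : Set ι)))) (r + 1) := by
  intro hPD
  refine not_PD_vars k (V.QF (Z w₀)) (r + 1) (by rw [QF_card, hr]) ?_
  refine PD_ideal_colon (mI k (V.U d B (fun w => (Z w : Set ι)))) _
    (mI k (V.U d (insert w₀ B) (fun w => (Z w : Set ι)))) (monomial (V.v d w₀) (1 : k)) ?_ ?_
    (by omega) hPD ?_
  · exact V.colon' k hw₀ hB
  · exact V.sup_monomial k hw₀
  · exact V.PD_U k _ Z (fun w hw hwB => h w hw (fun h' => hwB (Set.mem_insert_of_mem _ h')))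

end VarSetup

end Pool.Agent.Lib.MP_0c67ff_ag.U
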